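import Pool.Agent.Helper37.SY.Defs

/-!
# SY: block S (triples)
-/

set_option autoImplicit false
namespace Pool.Agent.Helper90.SY
open MeasureTheory Metric Set
open Pool.Agent.Helper59.Pack Pool.Agent.Helper69.MD Pool.Agent.Helper37.SY
open scoped ENNReal Pointwise Topology

theorem zero_mem_interior {C : Set E3} (hC : IsConvexBody C) (hs : Sym C) : (0 : E3) ∈ interior C := by
  obtain ⟨x, hx⟩ := hC.interior_nonempty
  have hneg : -x ∈ interior C := by
    have h1 : -C = C := by
      ext y
      constructor
      · intro hy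
        have := hs _ (mem_neg.1 hy)
        rwa [neg_neg] at this
      · intro hy
        exact mem_neg.2 (hs _ hy)
    have h2 : interior (-C) = -interior C := by
      have := (Homeomorph.neg E3).preimage_interior C
      simpa using this.symm
    rw [← h1, h2]
    simpa using hx
  have h := hC.convex.interior.midpoint_mem hx hneg
  rwa [midpoint_self_neg] at h

theorem vol_triple {C : Set E3} (hC : IsConvexBody C) (hs : Sym C) :
    volume {p : E3 × E3 | p.1 ∈ C ∧ p.2 ∈ C ∧ p.2 - p.1 ∈ C} ≤
      3 * volume {p : E3 × E3 | p.1 ∈ C ∧ gauge C p.2 ≤ gauge C p.1 ∧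
        gauge C (p.2 - p.1) ≤ gauge C p.1} := by
  have h0 : C ∈ 𝓝 (0 : E3) := mem_interior_iff_mem_nhds.1 (zero_mem_interior hC hs)
  have hg : Continuous (gauge C) := continuous_gauge hC.convex h0
  have hneg : ∀ x, gauge C (-x) = gauge C x := fun x => gauge_neg (fun x hx => hs x hx) x
  set A : Set (E3 × E3) := {p : E3 × E3 | p.1 ∈ C ∧ gauge C p.2 ≤ gauge C p.1 ∧
        gauge C (p.2 - p.1) ≤ gauge C p.1} with hA
  have hAc : IsClosed A := by
    refine (hC.isCompact.isClosed.preimage continuous_fst).inter
      ((isClosed_le (hg.comp continuous_snd) (hg.comp continuous_fst)).inter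
        (isClosed_le (hg.comp (continuous_snd.sub continuous_fst)) (hg.comp continuous_fst)))
  have hAm : MeasurableSet A := hAc.measurableSet
  have m1 : MeasurePreserving (Prod.swap : E3 × E3 → E3 × E3) volume volume := by
    rw [Measure.volume_eq_prod]
    exact Measure.measurePreserving_swap
  have m2 : MeasurePreserving (fun p : E3 × E3 => (-p.1 + p.2, p.2)) volume volume := by
    rw [Measure.volume_eq_prod]
    exact (measurePreserving_add_prod volume volume).comp
      ((Measure.measurePreserving_neg volume).prod (MeasurePreserving.id volume))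
  have hsub : {p : E3 × E3 | p.1 ∈ C ∧ p.2 ∈ C ∧ p.2 - p.1 ∈ C} ⊆
      A ∪ (Prod.swap ⁻¹' A ∪ (fun p : E3 × E3 => (-p.1 + p.2, p.2)) ⁻¹' A) := by
    rintro ⟨x, y⟩ ⟨hx, hy, hyx⟩
    simp only at hx hy hyx
    have e1 : gauge C (x - y) = gauge C (y - x) := by rw [← hneg (y - x), neg_sub]
    have e2 : -x + y = y - x := by abel
    rcases le_total (gauge C y) (gauge C x) with h1 | h1
    · rcases le_total (gauge C (y - x)) (gauge C x) with h2 | h2
      · exact Or.inl ⟨hx, h1, h2⟩
      · refine Or.inr (Or.inr ?_)
        refine ⟨?_, ?_, ?_⟩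
        · simp only [e2]
          exact hyx
        · simp only [e2]
          exact h1.trans h2
        · simp only [e2, sub_sub_cancel]
          exact h2
    · rcases le_total (gauge C (y - x)) (gauge C y) with h2 | h2
      · refine Or.inr (Or.inl ⟨hy, h1, ?_⟩)
        simp only [Prod.swap_prod_mk]
        rw [e1]
        exact h2
      · refine Or.inr (Or.inr ?_)
        refine ⟨?_, ?_, ?_⟩
        · simp only [e2]
          exact hyx
        · simp only [e2]
          exact h2
        · simp only [e2, sub_sub_cancel]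
          exact h1.trans h2
  calc volume {p : E3 × E3 | p.1 ∈ C ∧ p.2 ∈ C ∧ p.2 - p.1 ∈ C} ≤
      volume (A ∪ (Prod.swap ⁻¹' A ∪ (fun p : E3 × E3 => (-p.1 + p.2, p.2)) ⁻¹' A)) :=
        measure_mono hsub
    _ ≤ volume A + (volume (Prod.swap ⁻¹' A) +
        volume ((fun p : E3 × E3 => (-p.1 + p.2, p.2)) ⁻¹' A)) :=
        (measure_union_le _ _).trans (by gcongr; exact measure_union_le _ _)
    _ = volume A + (volume A + volume A) := by
        rw [m1.measure_preimage hAm.nullMeasurableSet, m2.measure_preimage hAm.nullMeasurableSet]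
    _ = 3 * volume A := by ring

end Pool.Agent.Helper90.SY
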