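import Pool.Agent.Helper37.SY.Defs

/-!
# SY: block T (projective coordinates)
-/

set_option autoImplicit false
namespace Pool.Agent.Helper90.SY
open MeasureTheory Metric Set
open Pool.Agent.Helper59.Pack Pool.Agent.Helper69.MD Pool.Agent.Helper37.SY
open scoped ENNReal Pointwise Topology

theorem lintegral_plane_smul {G : P2 → ℝ≥0∞} (hG : Measurable G) {s : ℝ} (hs : s ≠ 0) :
    ∫⁻ y, G y = ENNReal.ofReal (s ^ 2) * ∫⁻ v : P2, G (s • v) := by
  have h1 := Measure.map_addHaar_smul (volume : Measure P2) hs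
  have h2 : ∫⁻ v : P2, G (s • v) = ∫⁻ y, G y ∂(Measure.map (s • ·) (volume : Measure P2)) :=
    (lintegral_map hG (measurable_const_smul s)).symm
  rw [h2, h1, lintegral_smul_measure, smul_eq_mul, ← mul_assoc]
  have h3 : Module.finrank ℝ P2 = 2 := by simp
  have h4 : ENNReal.ofReal (s ^ 2) * ENNReal.ofReal |(s ^ Module.finrank ℝ P2)⁻¹| = 1 := by
    rw [h3, ← ENNReal.ofReal_mul (by positivity), abs_of_nonneg (by positivity),
      mul_inv_cancel₀ (by positivity), ENNReal.ofReal_one]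
  rw [h4, one_mul]

theorem measurable_mk3 : Measurable (fun p : ℝ × P2 => mk3 p.2 p.1) := mp_mk3.measurable

theorem lintegral_proj {F : E3 → ℝ≥0∞} (hF : Measurable F) :
    ∫⁻ x, F x = ∫⁻ v : P2, ∫⁻ s : ℝ, ENNReal.ofReal (s ^ 2) * F (mk3 (s • v) s) := by
  have hm1 : Measurable (fun p : ℝ × P2 => F (mk3 p.2 p.1)) := hF.comp measurable_mk3
  have hsm : Measurable (fun p : ℝ × P2 => (p.1, p.1 • p.2)) :=
    measurable_fst.prodMk (measurable_fst.smul measurable_snd)
  have hm2 : Measurable (fun p : ℝ × P2 => ENNReal.ofReal (p.1 ^ 2) * F (mk3 (p.1 • p.2) p.1)) := by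
    have : Measurable (fun p : ℝ × P2 => F (mk3 (p.1 • p.2) p.1)) := hm1.comp hsm
    exact (ENNReal.measurable_ofReal.comp (measurable_fst.pow_const 2)).mul this
  have h1 : ∫⁻ x, F x = ∫⁻ p : ℝ × P2, F (mk3 p.2 p.1) := (mp_mk3.lintegral_comp hF).symm
  have h2 : ∫⁻ p : ℝ × P2, F (mk3 p.2 p.1) = ∫⁻ s : ℝ, ∫⁻ y : P2, F (mk3 y s) := by
    rw [Measure.volume_eq_prod, lintegral_prod _ hm1.aemeasurable]
  have h3 : ∫⁻ s : ℝ, ∫⁻ y : P2, F (mk3 y s) =
      ∫⁻ s : ℝ, ∫⁻ v : P2, ENNReal.ofReal (s ^ 2) * F (mk3 (s • v) s) := by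
    refine lintegral_congr_ae ?_
    have h0 : ∀ᵐ s : ℝ, s ≠ 0 := Measure.ae_ne volume 0
    filter_upwards [h0] with s hs
    have hGm : Measurable (fun y : P2 => F (mk3 y s)) := hm1.comp measurable_prodMk_left
    rw [lintegral_plane_smul hGm hs, lintegral_const_mul]
    exact hGm.comp (measurable_const_smul s)
  rw [h1, h2, h3]
  exact lintegral_lintegral_swap hm2.aemeasurable

end Pool.Agent.Helper90.SY
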